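import Mathlib

set_option autoImplicit false

/-!
# Few orders are not enough: a common hierarchy for any few linear orders
-/

namespace Pool.Agent.U325.ON

open Finset

/-- full binary trees with labelled leaves -/
inductive HT (α : Type) : Type
  | leaf (x : α) : HT α
  | node (a b : HT α) : HT α

/-- the leaves in their order -/
def HT.seq {α : Type} : HT α → List α
  | HT.leaf x => [x]
  | HT.node a b => HT.seq a ++ HT.seq b

/-- at every node the leaves on one side are below all the leaves on the other side, for the order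
given by `f` -/
def Sepd {α : Type} (f : α → ℕ) : HT α → Prop
  | HT.leaf _ => True
  | HT.node a b => Sepd f a ∧ Sepd f b ∧
      ((∀ x ∈ a.seq, ∀ y ∈ b.seq, f x < f y) ∨ (∀ x ∈ a.seq, ∀ y ∈ b.seq, f y < f x))

variable {α : Type}

/-- one order: half of each of two sets can be separated -/
theorem split_one (f : α → ℕ) (hf : Function.Injective f) (A B : Finset α) (m : ℕ)
    (hA : 2 * m ≤ A.card) (hB : 2 * m ≤ B.card) : ∃ A' ⊆ A, ∃ B' ⊆ B, m ≤ A'.card ∧ m ≤ B'.card ∧
      ((∀ x ∈ A', ∀ y ∈ B', f x < f y) ∨ (∀ x ∈ A', ∀ y ∈ B', f y < f x)) := by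
  classical
  rcases Nat.eq_zero_or_pos m with rfl | hm
  · exact ⟨∅, Finset.empty_subset _, ∅, Finset.empty_subset _, by simp, by simp, Or.inl (by simp)⟩
  have hex : ∃ t, m ≤ (A.filter fun x => f x < t).card := by
    refine ⟨A.sup f + 1, ?_⟩
    have : A.filter (fun x => f x < A.sup f + 1) = A := by
      refine Finset.filter_true_of_mem fun x hx => ?_
      have := Finset.le_sup (f := f) hx
      omega
    rw [this]; omega
  obtain ⟨t, ht⟩ : ∃ t, t = Nat.find hex := ⟨_, rfl⟩
  have h1 : m ≤ (A.filter fun x => f x < t).card := by rw [ht]; exact Nat.find_spec hex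
  have ht0 : 0 < t := by
    by_contra h0
    have : t = 0 := by omega
    rw [this] at h1
    simp at h1
    omega
  have h2 : (A.filter fun x => f x < t - 1).card < m := by
    have := Nat.find_min hex (m := t - 1) (by omega)
    omega
  have h3 : (A.filter fun x => f x < t).card ≤ (A.filter fun x => f x < t - 1).card + 1 := by
    have hsub : A.filter (fun x => f x < t) ⊆
        (A.filter fun x => f x < t - 1) ∪ (A.filter fun x => f x = t - 1) := by
      intro x hx
      rw [Finset.mem_filter] at hx
      rw [Finset.mem_union, Finset.mem_filter, Finset.mem_filter]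
      by_cases h : f x < t - 1
      · exact Or.inl ⟨hx.1, h⟩
      · exact Or.inr ⟨hx.1, by omega⟩
    have h4 : (A.filter fun x => f x = t - 1).card ≤ 1 := by
      rw [Finset.card_le_one]
      intro x hx y hy
      rw [Finset.mem_filter] at hx hy
      exact hf (hx.2.trans hy.2.symm)
    exact (Finset.card_le_card hsub).trans ((Finset.card_union_le _ _).trans (by omega))
  have h5 : (A.filter fun x => f x < t).card + (A.filter fun x => ¬ f x < t).card = A.card :=
    Finset.card_filter_add_card_filter_not _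
  have h6 : (B.filter fun x => f x < t).card + (B.filter fun x => ¬ f x < t).card = B.card :=
    Finset.card_filter_add_card_filter_not _
  by_cases h7 : m ≤ (B.filter fun x => ¬ f x < t).card
  · refine ⟨A.filter fun x => f x < t, Finset.filter_subset _ _, B.filter fun x => ¬ f x < t,
      Finset.filter_subset _ _, h1, h7, Or.inl fun x hx y hy => ?_⟩
    rw [Finset.mem_filter] at hx hy
    omega
  · refine ⟨A.filter fun x => ¬ f x < t, Finset.filter_subset _ _, B.filter fun x => f x < t,
      Finset.filter_subset _ _, by omega, by omega, Or.inr fun x hx y hy => ?_⟩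
    rw [Finset.mem_filter] at hx hy
    omega

/-- several orders -/
theorem split_all : ∀ (l : List (α → ℕ)), (∀ f ∈ l, Function.Injective f) →
    ∀ (A B : Finset α) (m : ℕ), 2 ^ l.length * m ≤ A.card → 2 ^ l.length * m ≤ B.card →
      ∃ A' ⊆ A, ∃ B' ⊆ B, m ≤ A'.card ∧ m ≤ B'.card ∧ ∀ f ∈ l,
        ((∀ x ∈ A', ∀ y ∈ B', f x < f y) ∨ (∀ x ∈ A', ∀ y ∈ B', f y < f x)) := by
  intro l
  induction l with
  | nil =>
    intro _ A B m hA hB
    exact ⟨A, Finset.Subset.refl _, B, Finset.Subset.refl _, by simpa using hA, by simpa using hB,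
      by simp⟩
  | cons f l ih =>
    intro hl A B m hA hB
    rw [List.length_cons, pow_succ] at hA hB
    obtain ⟨A1, hA1, B1, hB1, h1, h2, h3⟩ := split_one f (hl f (by simp)) A B (2 ^ l.length * m)
      (by rw [← mul_assoc, mul_comm 2]; exact hA) (by rw [← mul_assoc, mul_comm 2]; exact hB)
    obtain ⟨A2, hA2, B2, hB2, h4, h5, h6⟩ := ih (fun g hg => hl g (List.mem_cons_of_mem _ hg))
      A1 B1 m h1 h2
    refine ⟨A2, hA2.trans hA1, B2, hB2.trans hB1, h4, h5, fun g hg => ?_⟩
    rcases List.mem_cons.1 hg with rfl | hg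
    · rcases h3 with h3 | h3
      · exact Or.inl fun x hx y hy => h3 x (hA2 hx) y (hB2 hy)
      · exact Or.inr fun x hx y hy => h3 x (hA2 hx) y (hB2 hy)
    · exact h6 g hg

/-- **A common hierarchy.** -/
theorem exists_tree (l : List (α → ℕ)) (hl : ∀ f ∈ l, Function.Injective f) :
    ∀ (L : ℕ) (A : Finset α), 2 ^ ((l.length + 1) * L) ≤ A.card →
      ∃ t : HT α, t.seq.length = 2 ^ L ∧ t.seq.Nodup ∧ (∀ x ∈ t.seq, x ∈ A) ∧ ∀ f ∈ l, Sepd f t := by
  classical
  intro L
  induction L with
  | zero =>
    intro A hA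
    rw [mul_zero, pow_zero] at hA
    obtain ⟨x, hx⟩ := Finset.card_pos.1 (by omega : 0 < A.card)
    exact ⟨HT.leaf x, by simp [HT.seq], by simp [HT.seq], by simpa [HT.seq] using hx,
      fun f _ => trivial⟩
  | succ L ih =>
    intro A hA
    have e1 : 2 ^ ((l.length + 1) * (L + 1)) =
        2 ^ l.length * 2 ^ ((l.length + 1) * L) + 2 ^ l.length * 2 ^ ((l.length + 1) * L) := by
      rw [← two_mul, ← pow_add, ← pow_succ']
      congr 1; ring
    rw [e1] at hA
    obtain ⟨A0, hA0, hc0⟩ := Finset.exists_subset_card_eq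
      (s := A) (n := 2 ^ l.length * 2 ^ ((l.length + 1) * L)) (by omega)
    have hc1 : (A \ A0).card = A.card - A0.card := Finset.card_sdiff_of_subset hA0
    obtain ⟨A', hA', B', hB', h1, h2, h3⟩ := split_all l hl A0 (A \ A0) _ hc0.ge (by omega)
    obtain ⟨t1, p1, p2, p3, p4⟩ := ih A' h1
    obtain ⟨t2, q1, q2, q3, q4⟩ := ih B' h2
    refine ⟨HT.node t1 t2, ?_, ?_, ?_, ?_⟩
    · rw [HT.seq, List.length_append, p1, q1, pow_succ]; ring
    · rw [HT.seq, List.nodup_append]
      refine ⟨p2, q2, fun x hx y hy hxy => ?_⟩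
      have h4 := hA' (p3 x hx)
      have h5 := hB' (q3 y hy)
      rw [Finset.mem_sdiff] at h5
      exact h5.2 (hxy ▸ h4)
    · intro x hx
      rw [HT.seq, List.mem_append] at hx
      rcases hx with hx | hx
      · exact hA0 (hA' (p3 x hx))
      · exact (Finset.mem_sdiff.1 (hB' (q3 x hx))).1
    · intro f hf
      refine ⟨p4 f hf, q4 f hf, ?_⟩
      rcases h3 f hf with h | h
      · exact Or.inl fun x hx y hy => h x (p3 x hx) y (q3 y hy)
      · exact Or.inr fun x hx y hy => h x (p3 x hx) y (q3 y hy)

end Pool.Agent.U325.ON
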