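import Pool.Agent.U325.ON.Zip
import Pool.Agent.U325.FO.Main

set_option autoImplicit false

/-!
# Few orders are not enough: the theorem
-/

namespace Pool.Agent.U325.ON

open Finset Pool.Agent.H581R2.Splay Pool.Agent.TH49.Spl Pool.Agent.Y395.SP Pool.Agent.N724.TW
  Pool.Agent.R531.Spl Pool.Agent.U325.FO

variable {n : ℕ}

/-- the mean number of hits -/
theorem mean_Hx (s k W : ℕ) (hs : 1 ≤ s) (hk : 1 ≤ k) (hW : W = 4 * s * k) (hsn : s ≤ n) :
    ∀ (X L : List (Fin n)), Full L → (Um s L X : ℝ) * (W : ℝ) ^ n ≤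
      16 * ∑ g : Fin n → Fin W, (Hx k s (fun z => (g z : ℕ)) L X : ℝ) := by
  intro X
  induction X with
  | nil => intro L _; simp [Um, Hx, hx]
  | cons x X ih =>
    intro L hL
    have h1 := ih (x :: L.erase x) (hL.next x)
    have h2 : ∀ g : Fin n → Fin W, (Hx k s (fun z => (g z : ℕ)) L (x :: X) : ℝ) =
        ∑ c ∈ range (2 * s), (hb k c (fun z => (g z : ℕ)) x (L.take s).toFinset : ℝ) +
          (Hx k s (fun z => (g z : ℕ)) (x :: L.erase x) X : ℝ) := by
      intro g
      rw [Hx_cons]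
      push_cast
      rfl
    simp only [h2, Finset.sum_add_distrib]
    rw [Um]
    by_cases hx : x ∈ L.take s
    · rw [if_pos hx, zero_add]
      have h3 : (0 : ℝ) ≤ ∑ g : Fin n → Fin W, ∑ c ∈ range (2 * s),
          (hb k c (fun z => (g z : ℕ)) x (L.take s).toFinset : ℝ) :=
        Finset.sum_nonneg fun _ _ => Finset.sum_nonneg fun _ _ => Nat.cast_nonneg _
      linarith
    · rw [if_neg hx]
      have h3 := mean_hit s k W hs hk hW x (L.take s).toFinset
        (by rw [List.mem_toFinset]; exact hx) (take_card hL hsn)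
      push_cast
      linarith

/-- some relabelling is expensive for OPT -/
theorem exists_expensive (hn : 2 ≤ n) (X : List (Fin n)) : ∃ ρ : Equiv.Perm (Fin n),
    ((∑ i ∈ Ico 0 (Nat.log 2 n - 2), Um (8 * 2 ^ i) (List.finRange n) X : ℕ) : ℝ) ≤
      32 * optAny (List.range n) (rel ρ X) + 128 * n := by
  classical
  set J : ℕ := Nat.log 2 n - 2 with hJ
  set W : ℕ := 2 ^ (J + 4) with hW
  have hWr : (0 : ℝ) < (W : ℝ) := by rw [hW]; positivity
  have : NeZero W := ⟨by rw [hW]; positivity⟩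
  set u : ℕ := ∑ i ∈ Ico 0 J, Um (8 * 2 ^ i) (List.finRange n) X with hu
  set H : (Fin n → Fin W) → ℕ := fun g =>
    ∑ i ∈ Ico 0 J, Hx (2 ^ (J - 1 - i)) (8 * 2 ^ i) (fun z => (g z : ℕ)) (List.finRange n) X with hH
  have h1 : (u : ℝ) * (W : ℝ) ^ n ≤ 16 * ∑ g : Fin n → Fin W, (H g : ℝ) := by
    simp only [hH, hu]
    push_cast
    rw [Finset.sum_comm, Finset.sum_mul, Finset.mul_sum]
    refine Finset.sum_le_sum fun i hi => ?_
    rw [Finset.mem_Ico] at hi
    exact mean_Hx (8 * 2 ^ i) (2 ^ (J - 1 - i)) W (by have := Nat.one_le_two_pow (n := i); omega)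
      Nat.one_le_two_pow (by
        rw [hW, show (4 : ℕ) * (8 * 2 ^ i) * 2 ^ (J - 1 - i) = 2 ^ 5 * (2 ^ i * 2 ^ (J - 1 - i)) by
          ring, ← pow_add, ← pow_add]
        congr 1; omega)
      (level_le hi.2) X (List.finRange n) full_finRange
  have hcard : (Finset.univ : Finset (Fin n → Fin W)).card = W ^ n := by
    rw [Finset.card_univ, Fintype.card_fun, Fintype.card_fin, Fintype.card_fin]
  obtain ⟨g, -, hg⟩ : ∃ g ∈ (Finset.univ : Finset (Fin n → Fin W)), (u : ℝ) / 16 ≤ H g := by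
    refine Finset.exists_le_of_sum_le (Finset.univ_nonempty) ?_
    rw [Finset.sum_const, nsmul_eq_mul, hcard]
    push_cast
    linarith
  set f : Fin n → ℕ := fun z => (g z : ℕ) * 2 ^ n + z with hf
  have hzn : ∀ z : Fin n, (z : ℕ) < 2 ^ n := fun z => z.2.trans Nat.lt_two_pow_self
  have hfi : Function.Injective f := by
    intro x y hxy
    have h1 : ((g x : ℕ) * 2 ^ n + x) % 2 ^ n = ((g y : ℕ) * 2 ^ n + y) % 2 ^ n := by
      simp only [hf] at hxy; rw [hxy]
    rw [Nat.mul_add_mod', Nat.mul_add_mod', Nat.mod_eq_of_lt (hzn x), Nat.mod_eq_of_lt (hzn y)] at h1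
    exact Fin.ext h1
  have hfd : ∀ (k : ℕ) (z : Fin n), (g z : ℕ) / 2 ^ k = f z / 2 ^ (k + n) := by
    intro k z
    rw [show (2 : ℕ) ^ (k + n) = 2 ^ n * 2 ^ k by rw [pow_add]; ring, ← Nat.div_div_eq_div_mul]
    congr 1
    simp only [hf]
    rw [mul_comm, Nat.mul_add_div (by positivity), Nat.div_eq_of_lt (hzn z), add_zero]
  obtain ⟨ρ, φ, hφ, hρ⟩ := rank_perm f hfi
  refine ⟨ρ, ?_⟩
  obtain ⟨T, hT⟩ : ∃ T : Tr, keys T = List.range n := ⟨lp n, keys_lp n⟩
  have h2 := opt_ge hT ρ φ hφ f hρ X (J + 4 + n)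
  have h3 : H g ≤ alt (J + 4 + n) (X.map f) + 16 * 2 ^ J := by
    have h4 : H g = ∑ i ∈ Ico 0 J, Hx (2 ^ (J - 1 - i + n)) (8 * 2 ^ i) f (List.finRange n) X :=
      Finset.sum_congr rfl fun i _ => Hx_scale (hfd (J - 1 - i)) _ _ _
    rw [h4]
    exact levels_alt J n 0 f X (List.finRange n)
  have h5 : 16 * 2 ^ J ≤ 8 * n := pow_small hn
  have h6 : (H g : ℝ) ≤ alt (J + 4 + n) (X.map f) + 8 * n := by
    have : ((H g : ℕ) : ℝ) ≤ ((alt (J + 4 + n) (X.map f) + 8 * n : ℕ) : ℝ) := by
      exact_mod_cast h3.trans (Nat.add_le_add_left h5 _)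
    push_cast at this
    exact this
  linarith

/-- the list after the requests -/
def run (L : List (Fin n)) : List (Fin n) → List (Fin n)
  | [] => L
  | x :: X => run (x :: L.erase x) X

theorem Um_append (s : ℕ) : ∀ (X Y L : List (Fin n)), Um s L (X ++ Y) =
    Um s L X + Um s (run L X) Y := by
  intro X
  induction X with
  | nil => intro Y L; simp [Um, run]
  | cons x X ih => intro Y L; simp only [List.cons_append, Um, run, ih]; omega

theorem run_full : ∀ (X L : List (Fin n)), Full L → Full (run L X) := by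
  intro X
  induction X with
  | nil => exact fun L h => h
  | cons x X ih => exact fun L h => ih _ (h.next x)

theorem Um_rep {s : ℕ} (h1 : 1 ≤ s) (hs : s ≤ n) (Y : List (Fin n)) (hY : Y.Nodup) (M : ℕ) :
    ∀ L : List (Fin n), Full L → M * (Y.length - s) ≤ Um s L (List.replicate M Y).flatten := by
  induction M with
  | zero => intro L _; simp
  | succ M ih =>
    intro L hL
    rw [List.replicate_succ, List.flatten_cons, Um_append]
    have h2 := ih (run L Y) (run_full Y L hL)
    have h3 := miss_ge h1 hs Y L hL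
    have h4 : Y.length - s ≤ (Y.toFinset \ (L.take s).toFinset).card := by
      have h5 := Finset.le_card_sdiff (L.take s).toFinset Y.toFinset
      rw [List.toFinset_card_of_nodup hY, take_card hL hs] at h5
      exact h5
    rw [Nat.add_mul, one_mul]
    omega

/-- **Any few orders are simultaneously cheap for some requests which are expensive in another
order.** -/
theorem main (n N L : ℕ) (σ : Fin N → Equiv.Perm (Fin n)) (hn : 2 ^ ((N + 1) * L) ≤ n) :
    ∃ Y : List (Fin n), Y.Nodup ∧ Y.length = 2 ^ L ∧ ∀ M : ℕ,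
      (∀ i, optAny (List.range n) (rel (σ i) (List.replicate M Y).flatten) ≤ 9 * (M * 2 ^ L)) ∧
      ∃ ρ : Equiv.Perm (Fin n),
        ((L : ℝ) - 3) * (M * 2 ^ L) ≤
          64 * optAny (List.range n) (rel ρ (List.replicate M Y).flatten) + 256 * n ∧
        ∀ T : Tr, keys T = List.range n → ((L : ℝ) - 3) * (M * 2 ^ L) ≤
          128 * costSplay T (rel ρ (List.replicate M Y).flatten) + 256 * n := by
  classical
  obtain ⟨t, h1, h2, -, h4⟩ := exists_tree (List.ofFn fun i : Fin N => fun x : Fin n => (σ i x : ℕ))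
    (fun f hf => by
      rw [List.mem_ofFn] at hf
      obtain ⟨i, rfl⟩ := hf
      exact fun a b hab => (σ i).injective (Fin.ext hab)) L Finset.univ (by
      rw [List.length_ofFn, Finset.card_univ, Fintype.card_fin]; exact hn)
  refine ⟨t.seq, h2, h1, fun M => ⟨fun i => ?_, ?_⟩⟩
  · have h5 := traversals (fun x : Fin n => (σ i x : ℕ)) t n
      (h4 _ (by rw [List.mem_ofFn]; exact ⟨i, rfl⟩)) (fun x _ => (σ i x).2) M
    rw [h1] at h5
    exact h5
  · -- the expensive relabelling
    have hlen : (2 : ℕ) ^ L ≤ n := by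
      refine le_trans (Nat.pow_le_pow_right (by norm_num) ?_) hn
      nlinarith
    have hcs : ∀ (ρ : Equiv.Perm (Fin n)) (X : List (Fin n)) (T : Tr), keys T = List.range n →
        (optAny (List.range n) (rel ρ X) : ℝ) ≤ 2 * costSplay T (rel ρ X) := by
      intro ρ X T hT
      obtain ⟨c, hc, hE⟩ := serve (rel ρ X) (bst_range hT) (fun x hx => by
        rw [hT, List.mem_range]; exact rel_mem ρ _ x hx)
      have h6 : optAny (List.range n) (rel ρ X) ≤ c := Nat.sInf_le ⟨T, hT, hE.exec⟩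
      exact_mod_cast h6.trans hc
    by_cases hL : L ≤ 3
    · refine ⟨Equiv.refl _, ?_, fun T _ => ?_⟩
      · have h5 : ((L : ℝ) - 3) * (M * 2 ^ L) ≤ 0 := by
          have : (L : ℝ) ≤ 3 := by exact_mod_cast hL
          exact mul_nonpos_of_nonpos_of_nonneg (by linarith) (by positivity)
        have h6 : (0 : ℝ) ≤ (optAny (List.range n)
          (rel (Equiv.refl _) (List.replicate M t.seq).flatten) : ℝ) := Nat.cast_nonneg _
        have h7 : (0 : ℝ) ≤ n := Nat.cast_nonneg _
        linarith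
      · have h5 : ((L : ℝ) - 3) * (M * 2 ^ L) ≤ 0 := by
          have : (L : ℝ) ≤ 3 := by exact_mod_cast hL
          exact mul_nonpos_of_nonpos_of_nonneg (by linarith) (by positivity)
        have h6 : (0 : ℝ) ≤ (costSplay T
          (rel (Equiv.refl _) (List.replicate M t.seq).flatten) : ℝ) := Nat.cast_nonneg _
        have h7 : (0 : ℝ) ≤ n := Nat.cast_nonneg _
        linarith
    · have hn2 : 2 ≤ n := by
        have : 2 ^ 1 ≤ 2 ^ L := Nat.pow_le_pow_right (by norm_num) (by omega)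
        omega
      obtain ⟨ρ, hρ⟩ := exists_expensive hn2 (List.replicate M t.seq).flatten
      have hlog : L ≤ Nat.log 2 n := (Nat.le_log_iff_pow_le (by norm_num) (by omega)).2 hlen
      have h5 : (L - 3) * (M * 2 ^ L) ≤ 2 * ∑ i ∈ Ico 0 (Nat.log 2 n - 2),
          Um (8 * 2 ^ i) (List.finRange n) (List.replicate M t.seq).flatten := by
        calc (L - 3) * (M * 2 ^ L) = ∑ i ∈ Ico 0 (L - 3), M * 2 ^ L := by
              rw [Finset.sum_const, Nat.card_Ico, smul_eq_mul, Nat.sub_zero]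
          _ ≤ ∑ i ∈ Ico 0 (L - 3), 2 * Um (8 * 2 ^ i) (List.finRange n)
                (List.replicate M t.seq).flatten := by
              refine Finset.sum_le_sum fun i hi => ?_
              rw [Finset.mem_Ico] at hi
              have h6 : 2 * (8 * 2 ^ i) ≤ 2 ^ L := by
                calc 2 * (8 * 2 ^ i) = 2 ^ (i + 4) := by rw [pow_add]; ring
                  _ ≤ 2 ^ L := Nat.pow_le_pow_right (by norm_num) (by omega)
              have h7 := Um_rep (s := 8 * 2 ^ i) (by have := Nat.one_le_two_pow (n := i); omega)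
                (by omega) t.seq h2 M (List.finRange n) full_finRange
              rw [h1] at h7
              have h8 : M * 2 ^ L ≤ 2 * (M * (2 ^ L - 8 * 2 ^ i)) := by
                rw [← mul_assoc, mul_comm 2 M, mul_assoc]
                exact Nat.mul_le_mul_left M (by omega)
              omega
          _ = 2 * ∑ i ∈ Ico 0 (L - 3), Um (8 * 2 ^ i) (List.finRange n)
                (List.replicate M t.seq).flatten := by rw [Finset.mul_sum]
          _ ≤ _ := Nat.mul_le_mul_left 2 (Finset.sum_le_sum_of_subset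
                (Finset.Ico_subset_Ico_right (by omega)))
      have h6 : ((L : ℝ) - 3) * (M * 2 ^ L) ≤
          64 * optAny (List.range n) (rel ρ (List.replicate M t.seq).flatten) + 256 * n := by
        have h7 : (((L - 3) * (M * 2 ^ L) : ℕ) : ℝ) ≤ ((2 * ∑ i ∈ Ico 0 (Nat.log 2 n - 2),
          Um (8 * 2 ^ i) (List.finRange n) (List.replicate M t.seq).flatten : ℕ) : ℝ) := by
          exact_mod_cast h5
        rw [Nat.cast_mul, Nat.cast_mul, Nat.cast_sub (by omega)] at h7
        push_cast at h7 hρ ⊢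
        linarith
      refine ⟨ρ, h6, fun T hT => ?_⟩
      have h7 := hcs ρ (List.replicate M t.seq).flatten T hT
      linarith

/-- **Key-independent competitiveness needs logarithmically many orders.** -/
theorem needed (n N : ℕ) (hn : 1 ≤ n) (σ : Fin N → Equiv.Perm (Fin n)) (C A : ℝ) (hC : 0 ≤ C)
    (h : ∀ X : List (Fin n), ∃ i, ∀ (T : Tr) (ρ : Equiv.Perm (Fin n)), keys T = List.range n →
      (costSplay T (rel ρ X) : ℝ) ≤ C * optAny (List.range n) (rel (σ i) X) + A) :
    Real.logb 2 n ≤ (N + 1) * (1152 * C + 4) := by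
  set L : ℕ := Nat.log 2 n / (N + 1) with hL
  have h1 : (N + 1) * L ≤ Nat.log 2 n := Nat.mul_div_le _ _
  have h2 : 2 ^ ((N + 1) * L) ≤ n :=
    (Nat.pow_le_pow_right (by norm_num) h1).trans (Nat.pow_log_le_self 2 (by omega))
  obtain ⟨Y, hY1, hY2, hY3⟩ := main n N L σ h2
  have hT : keys (lp n) = List.range n := keys_lp n
  have h3 : ∀ M : ℕ, ((L : ℝ) - 3 - 1152 * C) * (M * 2 ^ L) ≤ 128 * A + 256 * n := by
    intro M
    obtain ⟨h4, ρ, -, h5⟩ := hY3 M
    obtain ⟨i, hi⟩ := h (List.replicate M Y).flatten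
    have h6 := hi (lp n) ρ hT
    have h7 := h5 (lp n) hT
    have h8 : (optAny (List.range n) (rel (σ i) (List.replicate M Y).flatten) : ℝ) ≤
        9 * (M * 2 ^ L) := by exact_mod_cast h4 i
    have h9 := mul_le_mul_of_nonneg_left h8 hC
    linarith
  have h4 : (L : ℝ) - 3 ≤ 1152 * C := by
    by_contra hcon
    push Not at hcon
    have hpos : 0 < (L : ℝ) - 3 - 1152 * C := by linarith
    obtain ⟨M, hM⟩ := exists_nat_gt ((128 * A + 256 * n) / ((L : ℝ) - 3 - 1152 * C))
    rw [div_lt_iff₀ hpos] at hM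
    have h5 := h3 M
    have h6 : (1 : ℝ) ≤ 2 ^ L := one_le_pow₀ (by norm_num)
    have h7 : (M : ℝ) * ((L : ℝ) - 3 - 1152 * C) ≤ ((L : ℝ) - 3 - 1152 * C) * (M * 2 ^ L) := by
      have : (0 : ℝ) ≤ M := Nat.cast_nonneg _
      have h8 : (M : ℝ) ≤ M * 2 ^ L := by nlinarith
      nlinarith
    linarith
  have h5 : Real.logb 2 n ≤ (N + 1) * (L + 1) := by
    have h6 : n < 2 ^ (Nat.log 2 n + 1) := Nat.lt_pow_succ_log_self (by norm_num) _
    have h7 : Nat.log 2 n + 1 ≤ (N + 1) * (L + 1) := by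
      have := Nat.lt_mul_div_succ (Nat.log 2 n) (show 0 < N + 1 by omega)
      exact this
    have h8 : n < 2 ^ ((N + 1) * (L + 1)) := h6.trans_le (Nat.pow_le_pow_right (by norm_num) h7)
    have hnr : (0 : ℝ) < n := by exact_mod_cast hn
    rw [Real.logb_le_iff_le_rpow (by norm_num) hnr]
    have h9 : (2 : ℝ) ^ (((N : ℝ) + 1) * (L + 1)) = ((2 ^ ((N + 1) * (L + 1)) : ℕ) : ℝ) := by
      rw [show ((N : ℝ) + 1) * (L + 1) = (((N + 1) * (L + 1) : ℕ) : ℝ) by push_cast; ring,
        Real.rpow_natCast]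
      push_cast
      rfl
    rw [h9]
    exact_mod_cast h8.le
  refine h5.trans (mul_le_mul_of_nonneg_left (by linarith) (by positivity))

end Pool.Agent.U325.ON
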