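import Pool.Agent.U325.ON.Comb
import Pool.Agent.R531.Spl.ExE

set_option autoImplicit false

/-!
# Few orders are not enough: the traversals of a hierarchy are cheap

A pointer which moves along the edges of a static search tree is simulated by rotations at the root:
the nearest ancestors of the pointer are kept near the root.
-/

namespace Pool.Agent.U325.ON

open Pool.Agent.H581R2.Splay Pool.Agent.TH49.Spl Pool.Agent.R531.Spl
open Pool.Agent.H581R2.Splay.Tr

/-- the ancestors on the left, the nearest first -/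
def lT : List Fr → Tr → Tr
  | [], l => l
  | Fr.inL _ _ :: fs, l => lT fs l
  | Fr.inR a l' :: fs, l => node a (lT fs l') l

/-- the ancestors on the right, the nearest first -/
def rT : List Fr → Tr → Tr
  | [], r => r
  | Fr.inR _ _ :: fs, r => rT fs r
  | Fr.inL a r' :: fs, r => node a r (rT fs r')

/-- the tree with the pointer at the root -/
def Zt (fs : List Fr) : Tr → Tr
  | nil => nil
  | node x l r => node x (lT fs l) (rT fs r)

theorem lT_form (fs : List Fr) : (∀ l, lT fs l = l) ∨ ∃ p Q, ∀ l, lT fs l = node p Q l := by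
  induction fs with
  | nil => exact Or.inl fun _ => rfl
  | cons f fs ih =>
    cases f with
    | inL a r => exact ih
    | inR a l' => exact Or.inr ⟨a, lT fs l', fun _ => rfl⟩

theorem rT_form (fs : List Fr) : (∀ r, rT fs r = r) ∨ ∃ p Q, ∀ r, rT fs r = node p r Q := by
  induction fs with
  | nil => exact Or.inl fun _ => rfl
  | cons f fs ih =>
    cases f with
    | inR a l => exact ih
    | inL a r' => exact Or.inr ⟨a, rT fs r', fun _ => rfl⟩

/-- a move of the pointer costs at most two rotations -/
theorem move (f : Fr) (fs : List Fr) (y : ℕ) (a b : Tr) :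
    ∃ e ≤ 2, RotN e (Zt fs (plug1 f (node y a b))) (Zt (f :: fs) (node y a b)) := by
  cases f with
  | inL x r =>
    show ∃ e ≤ 2, RotN e (node x (lT fs (node y a b)) (rT fs r))
      (node y (lT fs a) (node x b (rT fs r)))
    rcases lT_form fs with h | ⟨p, Q, h⟩
    · rw [h, h]
      exact ⟨1, by norm_num, rotN_one (Rot.right x y a b (rT fs r))⟩
    · rw [h, h]
      exact ⟨2, le_rfl, rotN_two (Rot.inl x _ _ _ _ (Rot.left y p Q a b))
        (Rot.right x y (node p Q a) b (rT fs r))⟩
  | inR x l =>
    show ∃ e ≤ 2, RotN e (node x (lT fs l) (rT fs (node y a b)))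
      (node y (node x (lT fs l) a) (rT fs b))
    rcases rT_form fs with h | ⟨p, Q, h⟩
    · rw [h, h]
      exact ⟨1, by norm_num, rotN_one (Rot.left y x (lT fs l) a b)⟩
    · rw [h, h]
      exact ⟨2, le_rfl, rotN_two (Rot.inr x _ _ _ _ (Rot.right p y a b Q))
        (Rot.left y x (lT fs l) a (node p b Q))⟩

/-- the requests `Y` are served from `T` to `T'` at cost at most `c`; rotations before the first
request are allowed (and paid) -/
def Sv (T : Tr) (Y : List ℕ) (T' : Tr) (c : ℕ) : Prop :=
  ∃ (T1 : Tr) (e k : ℕ), RotN e T T1 ∧ ExecE T1 Y T' k ∧ e + k ≤ c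

theorem Sv.rot {T T' : Tr} {e c : ℕ} (h : RotN e T T') (hc : e ≤ c) : Sv T [] T' c :=
  ⟨T', e, 0, h, ExecE.nil T', by omega⟩

theorem Sv.comp {T T' T'' : Tr} {Y Y' : List ℕ} {c c' : ℕ} (h : Sv T Y T' c) (h' : Sv T' Y' T'' c') :
    Sv T (Y ++ Y') T'' (c + c') := by
  obtain ⟨T1, e, k, h1, h2, h3⟩ := h
  obtain ⟨T2, e', k', h4, h5, h6⟩ := h'
  by_cases hY : Y = []
  · subst hY
    cases h2
    exact ⟨T2, e + e', k', rotN_trans h1 h4, h5, by omega⟩
  · exact ⟨T1, e, k + e' + k', h1, (h2.more h4 hY).append h5, by omega⟩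

/-- the node with the key `m` is `d` levels above the pointer -/
def Up : ℕ → List Fr → Tr → ℕ → Prop
  | 0, _, t, m => ∃ l r, t = node m l r
  | _ + 1, [], _, _ => False
  | d + 1, f :: fs, t, m => Up d fs (plug1 f t) m

theorem plug1_form (f : Fr) (t : Tr) : ∃ x a b, plug1 f t = node x a b := by
  cases f with
  | inL a r => exact ⟨a, t, r, rfl⟩
  | inR a l => exact ⟨a, l, t, rfl⟩

theorem visit : ∀ (d : ℕ) (fs : List Fr) (t : Tr) (m : ℕ), (∃ x a b, t = node x a b) →
    Up d fs t m → Sv (Zt fs t) [m] (Zt fs t) (4 * d + 1) := by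
  intro d
  induction d with
  | zero =>
    rintro fs t m _ ⟨l, r, rfl⟩
    have h1 := ExecE.cons (Zt fs (node m l r)) (Zt fs (node m l r)) (Zt fs (node m l r)) m [] 0 0
      (RotN.refl _) (ExecE.nil _)
    refine ⟨_, 0, _, RotN.refl _, h1, ?_⟩
    simp [Zt, dep]
  | succ d ih =>
    rintro fs t m ⟨x, a, b, rfl⟩ hU
    cases fs with
    | nil => exact absurd hU id
    | cons f fs =>
      have h1 := ih fs (plug1 f (node x a b)) m (plug1_form f _) hU
      obtain ⟨e, he, h2⟩ := move f fs x a b
      have h3 : Sv (Zt (f :: fs) (node x a b)) [] (Zt fs (plug1 f (node x a b))) 2 :=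
        Sv.rot (rotN_symm h2) he
      have h4 : Sv (Zt fs (plug1 f (node x a b))) [] (Zt (f :: fs) (node x a b)) 2 := Sv.rot h2 he
      have h5 := (h3.comp h1).comp h4
      simp only [List.nil_append, List.append_nil] at h5
      convert h5 using 1
      ring

/-! ### the static tree of a hierarchy -/

/-- the keys `x + 1, ..., x + k` -/
def rp : ℕ → ℕ → Tr
  | _, 0 => nil
  | x, k + 1 => node (x + 1) nil (rp (x + 1) k)

/-- the keys `0, ..., k - 1` -/
def lp : ℕ → Tr
  | 0 => nil
  | k + 1 => node k (lp k) nil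

theorem keys_rp (k : ℕ) : ∀ x, keys (rp x k) = List.range' (x + 1) k := by
  induction k with
  | zero => intro x; simp [rp, keys]
  | succ k ih => intro x; simp [rp, keys, ih, List.range'_succ]

theorem keys_lp (k : ℕ) : keys (lp k) = List.range k := by
  induction k with
  | zero => simp [lp, keys]
  | succ k ih => simp [lp, keys, ih, List.range_succ]

variable {α : Type}

/-- the least label of a leaf -/
def mn (g : α → ℕ) : HT α → ℕ
  | HT.leaf x => g x
  | HT.node a b => if mn g a < mn g b then mn g a else mn g b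

/-- the search tree for the keys strictly between the least label and `e` -/
def bt (g : α → ℕ) : HT α → ℕ → Tr
  | HT.leaf x, e => rp (g x) (e - g x - 1)
  | HT.node a b, e => if mn g a < mn g b then node (mn g b) (bt g a (mn g b)) (bt g b e)
      else node (mn g a) (bt g b (mn g a)) (bt g a e)

theorem mn_mem (g : α → ℕ) : ∀ v : HT α, ∃ x ∈ v.seq, g x = mn g v := by
  intro v
  induction v with
  | leaf x => exact ⟨x, by simp [HT.seq], rfl⟩
  | node a b iha ihb =>
    obtain ⟨x, hx, hx2⟩ := iha
    obtain ⟨y, hy, hy2⟩ := ihb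
    rw [mn]
    split_ifs with h
    · exact ⟨x, by simp [HT.seq, hx], hx2⟩
    · exact ⟨y, by simp [HT.seq, hy], hy2⟩

theorem join_range (a b e : ℕ) (h1 : a < b) (h2 : b < e) :
    List.range' (a + 1) (b - a - 1) ++ b :: List.range' (b + 1) (e - b - 1) =
      List.range' (a + 1) (e - a - 1) := by
  have e1 : b :: List.range' (b + 1) (e - b - 1) = List.range' b (e - b) := by
    rw [show e - b = (e - b - 1) + 1 by omega, List.range'_succ]
    simp
  rw [e1]
  have e2 := List.range'_append (s := a + 1) (m := b - a - 1) (n := e - b) (step := 1)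
  rw [show a + 1 + 1 * (b - a - 1) = b by omega,
    show b - a - 1 + (e - b) = e - a - 1 by omega] at e2
  exact e2

theorem keys_bt (g : α → ℕ) : ∀ (v : HT α) (e : ℕ), Sepd g v → (∀ x ∈ v.seq, g x < e) →
    keys (bt g v e) = List.range' (mn g v + 1) (e - mn g v - 1) := by
  intro v
  induction v with
  | leaf x => intro e _ _; exact keys_rp _ _
  | node a b iha ihb =>
    rintro e ⟨ha, hb, hs⟩ hlt
    obtain ⟨x, hx, hx2⟩ := mn_mem g a
    obtain ⟨y, hy, hy2⟩ := mn_mem g b
    have hla : ∀ z ∈ a.seq, g z < e := fun z hz => hlt z (by simp [HT.seq, hz])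
    have hlb : ∀ z ∈ b.seq, g z < e := fun z hz => hlt z (by simp [HT.seq, hz])
    rw [bt, mn]
    by_cases h : mn g a < mn g b
    · rw [if_pos h, if_pos h]
      have hs' : ∀ z ∈ a.seq, g z < mn g b := by
        rcases hs with hs | hs
        · intro z hz; rw [← hy2]; exact hs z hz y hy
        · have := hs x hx y hy
          omega
      rw [keys, iha (mn g b) ha hs', ihb e hb hlb]
      exact join_range _ _ _ h (by rw [← hy2]; exact hlb y hy)
    · rw [if_neg h, if_neg h]
      have hs' : (∀ z ∈ b.seq, g z < mn g a) ∧ mn g b < mn g a := by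
        rcases hs with hs | hs
        · have := hs x hx y hy
          omega
        · refine ⟨fun z hz => ?_, ?_⟩
          · rw [← hx2]; exact hs x hx z hz
          · rw [← hx2, ← hy2]; exact hs x hx y hy
      rw [keys, ihb (mn g a) hb hs'.1, iha e ha hla]
      exact join_range _ _ _ hs'.2 (by rw [← hx2]; exact hla x hx)

/-- the static tree -/
def st (g : α → ℕ) (v : HT α) (n : ℕ) : Tr := node (mn g v) (lp (mn g v)) (bt g v n)

theorem keys_st (g : α → ℕ) (v : HT α) (n : ℕ) (hv : Sepd g v) (hlt : ∀ x ∈ v.seq, g x < n) :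
    keys (st g v n) = List.range n := by
  obtain ⟨x, hx, hx2⟩ := mn_mem g v
  have h1 : mn g v < n := by rw [← hx2]; exact hlt x hx
  rw [st, keys, keys_lp, keys_bt g v n hv hlt]
  have e1 : mn g v :: List.range' (mn g v + 1) (n - mn g v - 1) =
      List.range' (mn g v) (n - mn g v) := by
    rw [show n - mn g v = (n - mn g v - 1) + 1 by omega, List.range'_succ]
    simp
  rw [e1, List.range_eq_range', List.range_eq_range']
  have e2 := List.range'_append (s := 0) (m := mn g v) (n := n - mn g v) (step := 1)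
  rw [show 0 + 1 * mn g v = mn g v by omega, show mn g v + (n - mn g v) = n by omega] at e2
  exact e2

/-- **The sweep.** -/
theorem sweep (g : α → ℕ) : ∀ (v : HT α) (f : Fr) (fs : List Fr) (d e : ℕ),
    Up d fs (plug1 f (bt g v e)) (mn g v) →
      ∃ c, Sv (Zt fs (plug1 f (bt g v e))) (v.seq.map g) (Zt fs (plug1 f (bt g v e))) c ∧
        c + 8 ≤ 9 * v.seq.length + 4 * d := by
  intro v
  induction v with
  | leaf x =>
    intro f fs d e hU
    refine ⟨4 * d + 1, visit d fs _ _ (plug1_form f _) hU, ?_⟩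
    simp only [HT.seq, List.length_singleton]
    omega
  | node a b iha ihb =>
    intro f fs d e hU
    by_cases h : mn g a < mn g b
    · have ebt : bt g (HT.node a b) e = node (mn g b) (bt g a (mn g b)) (bt g b e) := by
        rw [bt, if_pos h]
      have emn : mn g (HT.node a b) = mn g a := by rw [mn, if_pos h]
      rw [ebt, emn] at hU
      rw [ebt]
      obtain ⟨k, hk, h2⟩ := move f fs (mn g b) (bt g a (mn g b)) (bt g b e)
      obtain ⟨ca, h3, h4⟩ := iha (Fr.inL (mn g b) (bt g b e)) (f :: fs) (d + 1) (mn g b) hU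
      obtain ⟨cb, h5, h6⟩ := ihb (Fr.inR (mn g b) (bt g a (mn g b))) (f :: fs) 0 e ⟨_, _, rfl⟩
      have h7 := (((Sv.rot h2 hk).comp h3).comp h5).comp (Sv.rot (rotN_symm h2) hk)
      simp only [List.nil_append, List.append_nil, ← List.map_append] at h7
      refine ⟨2 + ca + cb + 2, h7, ?_⟩
      rw [HT.seq, List.length_append]
      omega
    · have ebt : bt g (HT.node a b) e = node (mn g a) (bt g b (mn g a)) (bt g a e) := by
        rw [bt, if_neg h]
      have emn : mn g (HT.node a b) = mn g b := by rw [mn, if_neg h]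
      rw [ebt, emn] at hU
      rw [ebt]
      obtain ⟨k, hk, h2⟩ := move f fs (mn g a) (bt g b (mn g a)) (bt g a e)
      obtain ⟨ca, h3, h4⟩ := iha (Fr.inR (mn g a) (bt g b (mn g a))) (f :: fs) 0 e ⟨_, _, rfl⟩
      obtain ⟨cb, h5, h6⟩ := ihb (Fr.inL (mn g a) (bt g a e)) (f :: fs) (d + 1) (mn g a) hU
      have h7 := (((Sv.rot h2 hk).comp h3).comp h5).comp (Sv.rot (rotN_symm h2) hk)
      simp only [List.nil_append, List.append_nil, ← List.map_append] at h7
      refine ⟨2 + ca + cb + 2, h7, ?_⟩
      rw [HT.seq, List.length_append]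
      omega

/-- **Repeated traversals of a hierarchy cost at most nine per request.** -/
theorem traversals (g : α → ℕ) (v : HT α) (n : ℕ) (hv : Sepd g v) (hlt : ∀ x ∈ v.seq, g x < n)
    (M : ℕ) : optAny (List.range n) ((List.replicate M v.seq).flatten.map g) ≤
      9 * (M * v.seq.length) := by
  obtain ⟨c, ⟨T1, e, k, h1, h2, h3⟩, h4⟩ := sweep g v (Fr.inR (mn g v) (lp (mn g v))) [] 0 n
    ⟨_, _, rfl⟩
  have hne : v.seq.map g ≠ [] := by
    obtain ⟨x, hx, -⟩ := mn_mem g v
    intro h
    rw [List.map_eq_nil_iff] at h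
    rw [h] at hx
    simp at hx
  have h5 : ExecE T1 (v.seq.map g) T1 (k + e) := h2.more h1 hne
  have h6 := (h5.rep M).exec
  have h7 : keys T1 = List.range n := by
    rw [rotN_keys h1]
    exact keys_st g v n hv hlt
  have h8 : (List.replicate M v.seq).flatten.map g = (List.replicate M (v.seq.map g)).flatten := by
    rw [List.map_flatten, List.map_replicate]
  rw [h8]
  have h9 : optAny (List.range n) (List.replicate M (v.seq.map g)).flatten ≤ M * (k + e) :=
    Nat.sInf_le ⟨T1, h7, h6⟩
  refine h9.trans ?_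
  have h10 : k + e ≤ 9 * v.seq.length := by omega
  calc M * (k + e) ≤ M * (9 * v.seq.length) := Nat.mul_le_mul_left M h10
    _ = 9 * (M * v.seq.length) := by ring

end Pool.Agent.U325.ON
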